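import Pool.Agent.J4.H54.C3.Exm

/-!
# The Birch and Swinnerton-Dyer rank conjecture for `y² + y = x³` over cyclic extensions of
`ℚ(ω)` of degree `3 ^ k`

`K` is the field of the third roots of unity and `E : y² + y = x³`.  For `k ≥ 1` the class `k`
consists of the cube-free `D ∈ 𝓞 K` with `D = 1` modulo `3`, but not modulo `9`, all of whose prime
divisors have a norm that is `1` modulo `3 ^ (k + 1)` and modulo `27`, and that do not split: there
are no coprime `d₀ d₁ d₂ = D`, at least two of them not units, such that `d₁ d₂²`, `d₂ d₀²`, `d₀ d₁²`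
are cubes modulo all the primes that divide `d₀`, `d₁`, `d₂` respectively.

`F / K` is a cyclic extension of degree `3 ^ k` that contains a cube root of `D` and has an Artin map
of modulus `D`: outside `D` it is unramified, and the Frobenius element of a prime element `p`,
`p ∤ 3 D`, is the image of `p` under a homomorphism of `(𝓞 K / D)ˣ` to the Galois group.  (By class
field theory these are the class fields of the characters of `(𝓞 K / D)ˣ` of order `3 ^ k` whose
`3 ^ (k - 1)`-th power is the cubic symbol of `D`; the condition on the norms says that the units are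
in the kernel, and so there are such `F` for all `D` of the class `k`.)

We prove that `L(E / F, s)` is entire and not zero at `s = 1` and that `E(F)` has exactly nine
elements; that for `k = 1` the field `K(∛D)` has the required Artin map; and that the classes `1` and
`2` are infinite.

The proof.  (1) With the Artin map and cubic reciprocity the `3 ^ (k - 1)`-th power of the Artin map
is the product of the cubic residue symbols of the primes of `D`, and all primes of `D` are totally
ramified in `F`.  So the Laplacian of the symbols has the constants as its kernel for all the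
nontrivial characters `χ` of the Galois group: for those of order `3 ^ i`, `2 ≤ i`, the conductor is
the same, and those of order `3` belong to `K(∛D)`.  (2) The central values of `L(ψ χ, s)` are sums of
values of an elliptic function at division points, and their exact `3`-adic valuation, computed in the
library for characters of order `3 ^ i`, `i ≥ 2`, and here also for `i = 1`, shows that they are not
zero.  (3) The number of places of `F` above each prime of `K` and their degrees give the
factorization of `L(E / F, s)` (the `L`-series of Mathlib, with the local factors at all the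
finite places) into the `L(ψ χ, s)` and their conjugates.  (4) The group `E(F)` is decomposed into the
eigenspaces of the Galois group.  For the characters of order `3 ^ i`, `i ≥ 2`, they are given by the
points of the twisted abelian varieties over `K`, finite by the descent of the library; for the
characters of order `3` a descent with the equation `a + b + c = 0`, `a b c = D t³` shows that
`y² + y = D x³` and `y² + y = D⁻¹ x³` have no solutions in `K` with `x ≠ 0`.  The torsion is
found with the places above three, which are unramified in `F`, and as `ω` is not a cube in `F`.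
-/

set_option autoImplicit false

namespace Pool.Agent.Results.MP_1a91b9_nt.CyclicThreePower

open NumberField IsDedekindDomain

/-- The curve `y² + y = x³` over `F`. -/
def curve (F : Type) [Field F] : WeierstrassCurve F := ⟨0, 0, 1, 0, 0⟩

/-- The `L`-series of `E` over `F` (the product of the local factors at all finite places)
converges absolutely for `Re s > 3/2`, and it extends to an entire function that is not zero at
`s = 1`. -/
def NonzeroCentralValue {F : Type} [Field F] [NumberField F] (E : WeierstrassCurve F) : Prop :=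
  ∃ L : ℂ → ℂ, Differentiable ℂ L ∧
    (∀ s : ℂ, 3 / 2 < s.re →
      LSeriesSummable ((fun n : ℤ => (n : ℂ)) ∘ E.LFunction) s ∧ L s = E.LSeries s) ∧
    L 1 ≠ 0

section field

variable {K : Type} [Field K] [NumberField K]

/-- `x` is a cube modulo `p`. -/
def IsCubeMod (x p : 𝓞 K) : Prop := ∃ y : 𝓞 K, p ∣ x - y ^ 3

/-- `D` is not the product of three coprime factors `d 0`, `d 1`, `d 2`, at least two of them not
units, such that `d (c + 1) * d (c + 2) ^ 2` is a cube modulo all the primes that divide `d c`, for
all `c`. -/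
def Nonsplit (D : 𝓞 K) : Prop :=
  ∀ d : ZMod 3 → 𝓞 K, ∏ c, d c = D → (∀ c c', c ≠ c' → IsCoprime (d c) (d c')) →
    (∀ c p, Prime p → p ∣ d c → IsCubeMod (d (c + 1) * d (c + 2) ^ 2) p) →
    ∃ c, ∀ c', c' ≠ c → IsUnit (d c')

/-- The class `k`. -/
structure InClass (k : ℕ) (D : 𝓞 K) : Prop where
  three : (3 : 𝓞 K) ∣ D - 1
  not_nine : ¬ (9 : 𝓞 K) ∣ D - 1
  cube_free : ∀ x : 𝓞 K, x ^ 3 ∣ D → IsUnit x
  norm : ∀ p : 𝓞 K, Prime p → p ∣ D →
    (3 : ℤ) ^ (k + 1) ∣ Algebra.norm ℤ p - 1 ∧ (27 : ℤ) ∣ Algebra.norm ℤ p - 1
  nonsplit : Nonsplit D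

/-- `art` is an Artin map of modulus `D` for `F / K`: the inertia groups of the places that do not
divide `D` are trivial, and for every prime element `p` that does not divide `3 D` the image of `p`
is the Frobenius element of `p`. -/
structure IsArtin {F : Type} [Field F] [NumberField F] [Algebra K F] (D : 𝓞 K)
    (art : (𝓞 K ⧸ Ideal.span {D})ˣ →* Gal(F/K)) : Prop where
  unramified : ∀ v : HeightOneSpectrum (𝓞 F), algebraMap (𝓞 K) (𝓞 F) D ∉ v.asIdeal →
    ∀ g : Gal(F/K), (∀ x : 𝓞 F, g • x - x ∈ v.asIdeal) → g = 1
  frobenius : ∀ p : 𝓞 K, Prime p → ¬ p ∣ 3 → ∀ u : (𝓞 K ⧸ Ideal.span {D})ˣ,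
    (u : 𝓞 K ⧸ Ideal.span {D}) = Ideal.Quotient.mk _ p →
    ∀ v : HeightOneSpectrum (𝓞 F), algebraMap (𝓞 K) (𝓞 F) p ∈ v.asIdeal →
      ∀ x : 𝓞 F, art u • x - x ^ Nat.card (𝓞 K ⧸ Ideal.span {p}) ∈ v.asIdeal

/-- `F` is a cyclic extension of `K` of degree `3 ^ k` that contains a cube root of `D` and has an
Artin map of modulus `D`. -/
structure IsClassField (k : ℕ) (D : 𝓞 K) (F : Type) [Field F] [NumberField F] [Algebra K F] :
    Prop where
  galois : IsGalois K F
  cyclic : IsCyclic Gal(F/K)
  degree : Module.finrank K F = 3 ^ k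
  root : ∃ θ : F, θ ^ 3 = algebraMap K F (D : K)
  artin : ∃ art : (𝓞 K ⧸ Ideal.span {D})ˣ →* Gal(F/K), IsArtin D art

end field

section proof

open Pool.Agent.Y692.QS (Ei w nr)
open Pool.Agent.J4.H54.C3 Pool.Agent.J4.H54.C3.Asm Pool.Agent.J4.H54.C3.Exm
open Pool.Agent.J4.H54.C3.Gal (jF jF_inj)
open scoped Classical

variable {K : Type} [Field K] [NumberField K]

theorem inClass_iff (j : Ei ≃+* 𝓞 K) (hj : ∀ z : Ei, Algebra.norm ℤ (j z) = nr z) {k : ℕ} (D : Ei) :
    InClass k (j D) ↔ Cl k D := by
  have hjd : ∀ a b : Ei, j a ∣ j b ↔ a ∣ b := fun a b => map_dvd_iff j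
  have hju : ∀ a : Ei, IsUnit (j a) ↔ IsUnit a := fun a => MulEquiv.isUnit_map j
  have hjp : ∀ a : Ei, Prime (j a) ↔ Prime a := fun a => MulEquiv.prime_iff (j : Ei ≃* 𝓞 K)
  constructor
  · intro h
    refine ⟨?_, ?_, ?_, ?_, ?_⟩
    · rw [← hjd, map_sub, map_one, map_ofNat]
      exact h.three
    · rw [← hjd, map_sub, map_one, map_ofNat]
      exact h.not_nine
    · intro x hx
      rw [← hju]
      apply h.cube_free
      rw [← map_pow, hjd]
      exact hx
    · intro p hp hd
      have := h.norm (j p) ((hjp p).2 hp) ((hjd _ _).2 hd)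
      rwa [hj] at this
    · intro d hd1 hd2 hd3
      obtain ⟨c, hc⟩ := h.nonsplit (fun c => j (d c)) (by rw [← map_prod, hd1])
        (fun c c' hcc => (hd2 c c' hcc).map (j : Ei →+* 𝓞 K)) (by
        intro c p hp hpc
        obtain ⟨q, rfl⟩ := j.surjective p
        rw [hjp] at hp
        rw [hjd] at hpc
        obtain ⟨x, hx⟩ := hd3 c q hp hpc
        refine ⟨j x, ?_⟩
        have h2 : j (d (c + 1)) * j (d (c + 2)) ^ 2 - j x ^ 3 =
            j (d (c + 1) * d (c + 2) ^ 2 - x ^ 3) := by
          rw [map_sub, map_mul, map_pow, map_pow]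
        rw [h2, hjd]
        exact hx)
      exact ⟨c, fun c' hc' => (hju _).1 (hc c' hc')⟩
  · intro h
    refine ⟨?_, ?_, ?_, ?_, ?_⟩
    · have := h.three
      rw [← hjd, map_sub, map_one, map_ofNat] at this
      exact this
    · have := h.nine
      rw [← hjd, map_sub, map_one, map_ofNat] at this
      exact this
    · intro x hx
      obtain ⟨x, rfl⟩ := j.surjective x
      rw [hju]
      apply h.cf
      rw [← map_pow, hjd] at hx
      exact hx
    · intro p hp hd
      obtain ⟨p, rfl⟩ := j.surjective p
      rw [hj]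
      exact h.nrm p ((hjp p).1 hp) ((hjd _ _).1 hd)
    · intro d hd1 hd2 hd3
      obtain ⟨c, hc⟩ := h.split (fun c => j.symm (d c))
        (by rw [← map_prod, hd1, RingEquiv.symm_apply_apply])
        (fun c c' hcc => (hd2 c c' hcc).map (j.symm : 𝓞 K →+* Ei)) (by
        intro c p hp hpc
        have h1 := (hjd _ _).2 hpc
        rw [RingEquiv.apply_symm_apply] at h1
        obtain ⟨x, hx⟩ := hd3 c (j p) ((hjp p).2 hp) h1
        refine ⟨j.symm x, ?_⟩
        rw [← hjd, map_sub, map_mul, map_pow, map_pow, RingEquiv.apply_symm_apply,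
          RingEquiv.apply_symm_apply, RingEquiv.apply_symm_apply]
        exact hx)
      refine ⟨c, fun c' hc' => ?_⟩
      have h1 := hc c' hc'
      rw [← hju, RingEquiv.apply_symm_apply] at h1
      exact h1

variable [IsCyclotomicExtension {3} ℚ K]

theorem infinite_class {k : ℕ} (hk : k ≤ 2) : {D : 𝓞 K | InClass k D}.Infinite := by
  obtain ⟨⟨j, hj⟩, -⟩ := Pool.Agent.Y455.CTK.jex K
  refine Set.infinite_of_injOn_mapsTo (f := fun z : Ei => j z) (s := {D : Ei | Cl k D})
    (j.injective.injOn) ?_ (infinite_cl hk)
  intro D hD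
  exact (inClass_iff j hj D).2 hD

/-- The field `K(∛D)`. -/
theorem exists_field {D : 𝓞 K} (hD : InClass 1 D) :
    ∃ (F : Type) (_ : Field F) (_ : NumberField F) (_ : Algebra K F), IsClassField 1 D F := by
  obtain ⟨⟨j, hj⟩, -⟩ := Pool.Agent.Y455.CTK.jex K
  obtain ⟨D', rfl⟩ := j.surjective D
  have h := (inClass_iff j hj D').1 hD
  let a : K := ((j D' : 𝓞 K) : K)
  have hirr : Irreducible (Polynomial.X ^ 3 - Polynomial.C a : Polynomial K) := by
    refine X_pow_sub_C_irreducible_of_prime Nat.prime_three fun b hb => ?_
    exact not_cube j h.cf h.three h.nine b hb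
  have hζ : (primitiveRoots 3 K).Nonempty := by
    obtain ⟨ζ, hζ⟩ := IsCyclotomicExtension.exists_isPrimitiveRoot ℚ K
      (Set.mem_singleton 3) (by norm_num)
    exact ⟨ζ, (mem_primitiveRoots (by norm_num)).2 hζ⟩
  let F : Type := (Polynomial.X ^ 3 - Polynomial.C a : Polynomial K).SplittingField
  have : NumberField F := NumberField.of_module_finite K F
  have hsf : Polynomial.IsSplittingField K F (Polynomial.X ^ 3 - Polynomial.C a) :=
    inferInstanceAs (Polynomial.IsSplittingField K
      (Polynomial.X ^ 3 - Polynomial.C a : Polynomial K).SplittingField _)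
  have hgal : IsGalois K F := isGalois_of_isSplittingField_X_pow_sub_C hζ hirr F
  have hcyc : IsCyclic Gal(F/K) := isCyclic_of_isSplittingField_X_pow_sub_C hζ hirr F
  have hdeg : Module.finrank K F = 3 := finrank_of_isSplittingField_X_pow_sub_C hζ hirr F
  have hdeg' : Module.finrank K F = 3 ^ 1 := by rw [hdeg, pow_one]
  obtain ⟨θ, hθ⟩ : ∃ θ : F, θ ^ 3 = algebraMap K F a := by
    have hsp : ((Polynomial.X ^ 3 - Polynomial.C a).map (algebraMap K F)).Splits := hsf.splits
    obtain ⟨x, hx⟩ := hsp.exists_eval_eq_zero (by
      rw [Polynomial.degree_map, Polynomial.degree_X_pow_sub_C (by norm_num)]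
      norm_num)
    refine ⟨x, ?_⟩
    simp at hx
    linear_combination hx
  obtain ⟨A, hA⟩ := exists_A one_ne_zero hdeg' j h.cf h.three h.nine (θ := θ) hθ
  obtain ⟨m, π, e, hpr, hnd, he, hDD⟩ := fact D' h.three h.cf (fun p hp hd =>
    dvd_trans (by norm_num) (h.nrm p hp hd).2)
  subst hDD
  obtain ⟨art, h1, h2⟩ := Pool.Agent.J4.H54.C3.Kum.exists_art j hj hpr he (θ := θ) hθ A hA
  exact ⟨F, inferInstance, inferInstance, inferInstance, hgal, hcyc, hdeg', ⟨θ, hθ⟩,
    art, h1, h2⟩

end proof

/-- **Main theorem.**  `K` is the field of the third roots of unity and `E : y² + y = x³`.  (1) If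
`k ≥ 1`, `D` is in the class `k` and `F` is a cyclic extension of `K` of degree `3 ^ k` that contains
a cube root of `D` and has an Artin map of modulus `D`, then `L(E / F, s)` is entire and not zero at
`s = 1`, and `E(F)` has exactly nine elements.  (2) For every `D` of the class `1` there is such a
field `F` of degree `3`.  (3) The classes `1` and `2` are infinite. -/
theorem result (K : Type) [Field K] [NumberField K] [IsCyclotomicExtension {3} ℚ K] :
    (∀ k : ℕ, 1 ≤ k → ∀ D : 𝓞 K, InClass k D →
      ∀ (F : Type) [Field F] [NumberField F] [Algebra K F], IsClassField k D F →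
        NonzeroCentralValue (curve F) ∧ Nat.card (curve F).toAffine.Point = 9) ∧
    (∀ D : 𝓞 K, InClass 1 D →
      ∃ (F : Type) (_ : Field F) (_ : NumberField F) (_ : Algebra K F), IsClassField 1 D F) ∧
    {D : 𝓞 K | InClass 1 D}.Infinite ∧ {D : 𝓞 K | InClass 2 D}.Infinite := by
  refine ⟨fun k hk D hD F _ _ _ hF => ?_, fun D hD => exists_field hD,
    infinite_class (by norm_num), infinite_class (by norm_num)⟩
  obtain ⟨hgal, hcyc, hdeg, ⟨θ, hθ⟩, art, hart⟩ := hF
  have h := Pool.Agent.J4.H54.C3.Asm.main (by omega) hdeg hD.three hD.not_nine hD.cube_free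
    hD.norm hD.nonsplit hθ art hart.unramified hart.frobenius
  exact h

end Pool.Agent.Results.MP_1a91b9_nt.CyclicThreePower
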