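import Pool.Agent.J4.H54.GT.Eul2
import Pool.Agent.J4.H54.GT.Crd
import Pool.Agent.J4.H54.GT.Inf
import Pool.Agent.Y699.Pos

/-!
# The Birch and Swinnerton-Dyer rank conjecture for `y² = x³ - D² x` over the multiquadratic
extensions `K(√l : l ∈ S)` of `K = ℚ(i)`

`K` is a number field with an isomorphism `e` of `ℤ[i]` with its ring of integers, and
`E_D : y² = x³ - D² x`.  The class consists of the primary squarefree `D ∈ ℤ[i]` of norm `5` modulo
`8` that have no nontrivial factorization `D = d d'` for which `d'` is a square modulo all the prime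
factors of `d` and `d` is a square modulo all those of `d'`.  A finite set `S` of primes
`l = 1` modulo `4` that do not divide `D` is called admissible if modulo each `l ∈ S` all the
other elements of `S` and all the primary prime factors of `D` but exactly one are squares.  We prove
that all the `D` of the class, and so a positive proportion of all primary squarefree `D`, have the
following property: for every admissible `S` the primes `l` for which `S ∪ {l}` is admissible have the
density `ω(D) / 2 ^ (ω(D) + #S)` among the primes `l = 1` modulo `4`; and over every field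
`F = K(√l : l ∈ S)`, an abelian extension of `K` of degree `2 ^ #S`, the rank part of the conjecture
holds for `E_D` with order of vanishing and rank zero, and `E_D(F)` has exactly four elements.

The proof.  (1) For admissible `S` and `T ⊆ S` the number `D ∏_{l ∈ T} l` is in the class: the `l` are
leaves of the graph of the quadratic residue symbols of its prime factors.  So by the library its
`L`-function over `K` does not vanish at `1` and the twist has four points over `K`.  (2) The extension
`F / K` is unramified outside `S`; the residue degrees and the numbers of places above each prime of `K`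
are computed with the Frobenius elements, for `l ∈ S` with the inertia group; the equation
`y² = x³ - D² x` is minimal at all places of `F`, also at those above `2`, and the Euler factor of
`E_D` over `F` at the places above a prime is the product of the Euler factors over `K` of the twists
`D ∏_{l ∈ T} l`, `T ⊆ S`.  So the `L`-function over `F` is the product of their `L`-functions.  (3) If
`F' = F(√l)` and `E_a(F)` and `E_{a l}(F)` have no points with `y ≠ 0`, then `E_a(F')` is killed by `4`,
and a point of order `4` makes `a` a square in `F'`; this is impossible for `a = D ∏_{l ∈ T} l` as the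
prime factors of `D` are not ramified.  (4) The density is that of the joint values of the quadratic
residue symbols of a Gaussian prime.
-/

set_option autoImplicit false

namespace Pool.Agent.Results.MP_1a91b9_nt.GaussianTowers

open NumberField IsDedekindDomain Filter Topology

/-- `W v` is, for every finite place `v`, an integral model of `E` with discriminant minimal at
`v`. -/
def MinimalModels {F : Type} [Field F] [NumberField F] (E : WeierstrassCurve F)
    (W : HeightOneSpectrum (𝓞 F) → WeierstrassCurve (𝓞 F)) : Prop :=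
  ∀ v : HeightOneSpectrum (𝓞 F),
    (∃ C : WeierstrassCurve.VariableChange F, C • (W v).map (algebraMap (𝓞 F) F) = E) ∧
    ∀ W' : WeierstrassCurve (𝓞 F),
      (∃ C : WeierstrassCurve.VariableChange F, C • W'.map (algebraMap (𝓞 F) F) = E) →
      ∀ n : ℕ, (W v).Δ ∈ v.asIdeal ^ n → W'.Δ ∈ v.asIdeal ^ n

open Classical in
/-- The Euler factor at `v`, `(1 - a_v Nv^{-s} + Nv^{1-2s})⁻¹` if the reduction at `v` is good and
`(1 - a_v Nv^{-s})⁻¹` if it is bad, where `a_v` is `Nv` minus the number of affine points of the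
reduction of `W v`. -/
noncomputable def localFactor {F : Type} [Field F] [NumberField F]
    (W : HeightOneSpectrum (𝓞 F) → WeierstrassCurve (𝓞 F)) (v : HeightOneSpectrum (𝓞 F))
    (s : ℂ) : ℂ :=
  (1 - ((Ideal.absNorm v.asIdeal : ℂ)
        - (Nat.card {xy : (𝓞 F ⧸ v.asIdeal) × (𝓞 F ⧸ v.asIdeal) //
            ((W v).map (Ideal.Quotient.mk v.asIdeal)).toAffine.Equation xy.1 xy.2} : ℂ))
        * (Ideal.absNorm v.asIdeal : ℂ) ^ (-s)
    + (if (W v).Δ ∈ v.asIdeal then 0 else (Ideal.absNorm v.asIdeal : ℂ))
        * (Ideal.absNorm v.asIdeal : ℂ) ^ (-2 * s))⁻¹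

/-- The rank part of the conjecture for `E`, with order and rank equal to `r`: `E` has minimal models,
its `L`-series, the product of the Euler factors for `Re s > 3/2`, extends to an entire function `L`
with a zero of order `r` at `s = 1`, and the group `E(F)` is finitely generated of rank `r`. -/
def BSDRank {F : Type} [Field F] [NumberField F] [DecidableEq F] (E : WeierstrassCurve F) (r : ℕ) :
    Prop :=
  (∃ W : HeightOneSpectrum (𝓞 F) → WeierstrassCurve (𝓞 F), MinimalModels E W) ∧
  (∃ L : ℂ → ℂ, Differentiable ℂ L ∧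
    (∀ W : HeightOneSpectrum (𝓞 F) → WeierstrassCurve (𝓞 F), MinimalModels E W →
      ∀ s : ℂ, 3 / 2 < s.re → HasProd (fun v => localFactor W v s) (L s)) ∧
    analyticOrderAt L 1 = r) ∧
  Module.Finite ℤ E.toAffine.Point ∧ Module.finrank ℤ E.toAffine.Point = r

/-- `D ≡ 1 mod 2 + 2i`. -/
def Primary (D : GaussianInt) : Prop := (⟨2, 2⟩ : GaussianInt) ∣ D - 1

/-- `x` is a square modulo `l`. -/
def IsSquareMod (x l : GaussianInt) : Prop := ∃ y : GaussianInt, l ∣ x - y ^ 2

/-- `D` is primary and squarefree of norm `5` modulo `8`, and there is no factorization `D = d d'` with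
primary `d, d' ≠ 1` for which `d'` is a square modulo all the prime factors of `d` and `d` is a square
modulo all the prime factors of `d'`. -/
def InClass (D : GaussianInt) : Prop :=
  Primary D ∧ Squarefree D ∧ D.norm % 8 = 5 ∧
    ∀ d d' : GaussianInt, Primary d → Primary d' → D = d * d' →
      (∀ p : GaussianInt, Prime p → Primary p → p ∣ d → IsSquareMod d' p) →
      (∀ p : GaussianInt, Prime p → Primary p → p ∣ d' → IsSquareMod d p) → d = 1 ∨ d' = 1

/-- `l` is a prime, `1` modulo `4`, it does not divide `D`, and exactly one of the primary primes that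
divide `D` is not a square modulo `l`. -/
def Attached (D l : GaussianInt) : Prop :=
  Prime l ∧ (4 : GaussianInt) ∣ l - 1 ∧ ¬ l ∣ D ∧
    ∃! p : GaussianInt, Prime p ∧ Primary p ∧ p ∣ D ∧ ¬ IsSquareMod p l

/-- Each `l ∈ S` is attached to `D`, and the other elements of `S` are squares modulo `l`. -/
def Admissible (D : GaussianInt) (S : Finset GaussianInt) : Prop :=
  (∀ l ∈ S, Attached D l) ∧ ∀ l ∈ S, ∀ m ∈ S, m ≠ l → IsSquareMod m l

/-- The number of the primary primes that divide `D`. -/
noncomputable def omega (D : GaussianInt) : ℕ :=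
  {p : GaussianInt | Prime p ∧ Primary p ∧ p ∣ D}.ncard

section field

variable {K : Type} [Field K] [NumberField K]

/-- `F = K(√l : l ∈ S)`. -/
def Generated (e : GaussianInt ≃+* 𝓞 K) (S : Finset GaussianInt) (F : Type) [Field F]
    [Algebra K F] : Prop :=
  ∃ r : GaussianInt → F, (∀ l ∈ S, r l ^ 2 = algebraMap K F ((e l : 𝓞 K) : K)) ∧
    ∀ L : Subfield F, (∀ k : K, algebraMap K F k ∈ L) → (∀ l ∈ S, r l ∈ L) → L = ⊤

/-- The curve `y² = x³ - D² x` over the extension `F` of `K`. -/
noncomputable def twist (e : GaussianInt ≃+* 𝓞 K) (D : GaussianInt) (F : Type) [Field F]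
    [Algebra K F] : WeierstrassCurve F :=
  ⟨0, 0, 0, -(algebraMap K F ((e D : 𝓞 K) : K)) ^ 2, 0⟩

end field

/-- For `K = ℚ(i)` and every admissible set `S`: there are infinitely many primes `l` outside `S` such
that `S ∪ {l}` is admissible, and their density among the primes that are `1` modulo `4` is
`ω(D) / 2 ^ (ω(D) + #S)`; there is a number field `F = K(√l : l ∈ S)`, and for each such `F` the
degree `[F : K]` is `2 ^ #S`, the rank part of the conjecture holds for `y² = x³ - D² x` over `F` with
order of vanishing and rank zero, and this curve has exactly four points over `F`. -/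
def Towers (D : GaussianInt) : Prop :=
  ∀ S : Finset GaussianInt, Admissible D S →
    {l : GaussianInt | l ∉ S ∧ Admissible D (insert l S)}.Infinite ∧
    Tendsto (fun X : ℕ =>
      ({l : GaussianInt | (l ∉ S ∧ Admissible D (insert l S)) ∧ l.norm ≤ X}.ncard : ℝ) /
        ({l : GaussianInt | Prime l ∧ (4 : GaussianInt) ∣ l - 1 ∧ l.norm ≤ X}.ncard : ℝ)) atTop
      (𝓝 ((omega D : ℝ) / 2 ^ (omega D + S.card))) ∧
    ∀ (K : Type) [Field K] [NumberField K] (e : GaussianInt ≃+* 𝓞 K),
      (∃ (F : Type) (_ : Field F) (_ : NumberField F) (_ : Algebra K F), Generated e S F) ∧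
      ∀ (F : Type) [Field F] [NumberField F] [DecidableEq F] [Algebra K F], Generated e S F →
        Module.finrank K F = 2 ^ S.card ∧ BSDRank (twist e D F) 0 ∧
          Nat.card (twist e D F).toAffine.Point = 4

section proof

open Pool.Agent.Y699
open Pool.Agent.J4.H54.GT
open Pool.Agent.W164.RC (prim_iff_dvd)
open Pool.Agent.H304R2.EC.A1 (prim)

theorem primary_iff (z : GaussianInt) : Primary z ↔ prim z := (prim_iff_dvd z).symm

theorem qr_one' {π x : GaussianInt} (h : ¬ π ∣ x) : qr π x = 1 ↔ IsSquareMod x π := by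
  rw [qr_one_iff h, Pool.Agent.Y715.Qr.qs_zero]
  rfl

theorem pd_iff {D : GaussianInt} (hD : PS D) (p : GaussianInt) :
    (Prime p ∧ Primary p ∧ p ∣ D) ↔ p ∈ PD D := by
  rw [mem_PD hD.ne, primary_iff]
  exact ⟨fun h => ⟨⟨h.1, h.2.1⟩, h.2.2⟩, fun h => ⟨h.1.pr, h.1.prm, h.2⟩⟩

theorem omega_eq {D : GaussianInt} (hD : PS D) : omega D = (PD D).card := by
  unfold omega
  rw [← Set.ncard_coe_finset]
  congr 1
  ext p
  exact pd_iff hD p

theorem good_iff (D : GaussianInt) : InClass D ↔ Good D := by
  have cop : ∀ d d' : GaussianInt, Squarefree D → D = d * d' → ∀ p, Prime p → p ∣ d → ¬ p ∣ d' := by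
    rintro d d' hsq rfl p hp ⟨a, rfl⟩ ⟨b, rfl⟩
    exact hp.not_isUnit (hsq p ⟨a * b, by ring⟩)
  constructor
  · rintro ⟨h1, h2, h3, h4⟩
    have h1' := (primary_iff D).1 h1
    refine ⟨⟨h1', h2⟩, h3, fun d d' hd hd' he h5 h6 => ?_⟩
    have hdn : d ≠ 0 := Pool.Agent.H304R2.EC.A1.prim_ne_zero hd
    have hdn' : d' ≠ 0 := Pool.Agent.H304R2.EC.A1.prim_ne_zero hd'
    refine h4 d d' ((primary_iff _).2 hd) ((primary_iff _).2 hd') he ?_ ?_
    · intro p hp hpp hpd
      rw [← qr_one' (cop d d' h2 he p hp hpd)]
      exact h5 p ((mem_PD hdn).2 ⟨⟨hp, (primary_iff p).1 hpp⟩, hpd⟩)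
    · intro p hp hpp hpd
      rw [← qr_one' (cop d' d h2 (by rw [he, mul_comm]) p hp hpd)]
      exact h6 p ((mem_PD hdn').2 ⟨⟨hp, (primary_iff p).1 hpp⟩, hpd⟩)
  · intro h
    refine ⟨(primary_iff D).2 h.ps.prm, h.ps.sqf, h.five, fun d d' hd hd' he h5 h6 => ?_⟩
    rw [primary_iff] at hd hd'
    have hdn : d ≠ 0 := Pool.Agent.H304R2.EC.A1.prim_ne_zero hd
    have hdn' : d' ≠ 0 := Pool.Agent.H304R2.EC.A1.prim_ne_zero hd'
    refine h.ker d d' hd hd' he ?_ ?_
    · intro p hp
      obtain ⟨hp1, hp2⟩ := (mem_PD hdn).1 hp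
      rw [qr_one' (cop d d' h.ps.sqf he p hp1.pr hp2)]
      exact h5 p hp1.pr ((primary_iff p).2 hp1.prm) hp2
    · intro p hp
      obtain ⟨hp1, hp2⟩ := (mem_PD hdn').1 hp
      rw [qr_one' (cop d' d h.ps.sqf (by rw [he, mul_comm]) p hp1.pr hp2)]
      exact h6 p hp1.pr ((primary_iff p).2 hp1.prm) hp2

theorem attached_iff {D : GaussianInt} (hD : PS D) (l : GaussianInt) :
    Attached D l ↔ Att D l := by
  constructor
  · rintro ⟨h1, h2, h3, p, ⟨hp1, hp2, hp3, hp4⟩, huniq⟩
    have hnd : ∀ q : GaussianInt, q ∣ D → ¬ l ∣ q := fun q hq h => h3 (h.trans hq)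
    refine ⟨⟨h1, prim_of_four h2⟩, h2, h3, p, (pd_iff hD p).1 ⟨hp1, hp2, hp3⟩, ?_, ?_⟩
    · rcases qr_cases (hnd p hp3) with h | h
      · exact absurd ((qr_one' (hnd p hp3)).1 h) hp4
      · exact h
    · intro ρ hρ hne
      obtain ⟨h5, h6, h7⟩ := (pd_iff hD ρ).2 hρ
      rw [qr_one' (hnd ρ h7)]
      by_contra hcon
      exact hne (huniq ρ ⟨h5, h6, h7, hcon⟩)
  · intro h
    obtain ⟨π, hπ, h1, h2⟩ := h.one
    have hnd : ∀ q : GaussianInt, q ∣ D → ¬ l ∣ q := fun q hq h' => h.nd (h'.trans hq)
    obtain ⟨h5, h6, h7⟩ := (pd_iff hD π).2 hπ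
    refine ⟨h.pp.pr, h.four, h.nd, π, ⟨h5, h6, h7, fun h8 => ?_⟩, ?_⟩
    · rw [← qr_one' (hnd π h7), h1] at h8
      norm_num at h8
    · rintro ρ ⟨h8, h9, h10, h11⟩
      by_contra hne
      apply h11
      rw [← qr_one' (hnd ρ h10)]
      exact h2 ρ ((pd_iff hD ρ).1 ⟨h8, h9, h10⟩) hne

theorem admissible_iff {D : GaussianInt} (hD : PS D) (S : Finset GaussianInt) :
    Admissible D S ↔ AdmS D S := by
  constructor
  · rintro ⟨h1, h2⟩
    have h3 : ∀ l ∈ S, Att D l := fun l hl => (attached_iff hD l).1 (h1 l hl)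
    refine ⟨h3, fun l hl m hm hne => ?_⟩
    rw [qr_one' fun h => hne ((h3 l hl).pp.eq_of_dvd (h3 m hm).pp h).symm]
    exact h2 l hl m hm hne
  · intro h
    refine ⟨fun l hl => (attached_iff hD l).2 (h.att l hl), fun l hl m hm hne => ?_⟩
    rw [← qr_one' fun h' => hne ((h.att l hl).pp.eq_of_dvd (h.att m hm).pp h').symm]
    exact h.sq l hl m hm hne

/-- There is a field generated by the square roots. -/
theorem exists_generated {K : Type} [Field K] [NumberField K] (e : GaussianInt ≃+* 𝓞 K)
    (S : Finset GaussianInt) :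
    ∃ (F : Type) (_ : Field F) (_ : NumberField F) (_ : Algebra K F), Generated e S F := by
  classical
  let p : Polynomial K := ∏ l ∈ S, (Polynomial.X ^ 2 - Polynomial.C ((e l : 𝓞 K) : K))
  let F : Type := p.SplittingField
  have : NumberField F := NumberField.of_module_finite K F
  have hp0 : p ≠ 0 := Finset.prod_ne_zero_iff.2 fun l _ =>
    Polynomial.X_pow_sub_C_ne_zero (by norm_num) _
  have hsp : (p.map (algebraMap K F)).Splits := Polynomial.SplittingField.splits p
  have hp0' : p.map (algebraMap K F) ≠ 0 :=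
    (Polynomial.map_ne_zero_iff (algebraMap K F).injective).2 hp0
  have hroot : ∀ l : GaussianInt, ∃ x : F, l ∈ S → x ^ 2 = algebraMap K F ((e l : 𝓞 K) : K) := by
    intro l
    by_cases hl : l ∈ S
    · have h1 : ((Polynomial.X ^ 2 - Polynomial.C ((e l : 𝓞 K) : K)).map (algebraMap K F)).Splits :=
        hsp.of_dvd hp0' (Polynomial.map_dvd _ (Finset.dvd_prod_of_mem
          (fun l : GaussianInt => Polynomial.X ^ 2 - Polynomial.C ((e l : 𝓞 K) : K)) hl))
      obtain ⟨x, hx⟩ := h1.exists_eval_eq_zero (by
        rw [Polynomial.degree_map, Polynomial.degree_X_pow_sub_C (by norm_num)]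
        norm_num)
      refine ⟨x, fun _ => ?_⟩
      simp at hx
      linear_combination hx
    · exact ⟨0, fun h => absurd h hl⟩
  choose r hr using hroot
  let M : IntermediateField K F := IntermediateField.adjoin K (r '' S)
  have hMn : NumberField M := NumberField.of_module_finite K M
  have hrM : ∀ l ∈ S, r l ∈ M := fun l hl =>
    IntermediateField.subset_adjoin K _ ⟨l, hl, rfl⟩
  refine ⟨M, inferInstance, hMn, inferInstance, fun l => if h : l ∈ S then ⟨r l, hrM l h⟩ else 0,
    fun l hl => ?_, fun L hL1 hL2 => ?_⟩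
  · simp only [dif_pos hl]
    apply Subtype.ext
    exact hr l hl
  · rw [eq_top_iff]
    intro y _
    let L' : IntermediateField K F :=
      { (L.map (algebraMap M F)) with
        algebraMap_mem' := fun k => ⟨algebraMap K M k, hL1 k, rfl⟩ }
    have h1 : M ≤ L' := by
      apply IntermediateField.adjoin_le_iff.2
      rintro _ ⟨l, hl, rfl⟩
      have h2 := hL2 l hl
      simp only [dif_pos (Finset.mem_coe.1 hl)] at h2
      exact ⟨_, h2, rfl⟩
    obtain ⟨y', hy', h2⟩ := h1 y.2
    have h3 : y' = y := Subtype.ext h2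
    rw [← h3]
    exact hy'

theorem ctx_of {K : Type} [Field K] [NumberField K] (e : GaussianInt ≃+* 𝓞 K) {D : GaussianInt}
    {S : Finset GaussianInt} (hS : AdmS D S) {F : Type} [Field F] [NumberField F] [Algebra K F]
    (h : Generated e S F) : ∃ x : GaussianInt → 𝓞 F, Ctx e S x := by
  classical
  obtain ⟨r, h1, h2⟩ := h
  have hint : ∀ l ∈ S, IsIntegral ℤ (r l) := by
    intro l hl
    apply IsIntegral.of_pow (n := 2) (by norm_num)
    rw [h1 l hl]
    exact RingOfIntegers.isIntegral_coe (io F e l)
  have hx' : ∀ l : GaussianInt, ∃ y : 𝓞 F, l ∈ S → algebraMap (𝓞 F) F y = r l := by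
    intro l
    by_cases hl : l ∈ S
    · exact ⟨⟨r l, hint l hl⟩, fun _ => rfl⟩
    · exact ⟨0, fun h => absurd h hl⟩
  choose x hx using hx'
  refine ⟨x, fun l hl => (hS.att l hl).pp, fun l hl => ?_,
    fun L hL1 hL2 => h2 L hL1 fun l hl => ?_⟩
  · apply IsFractionRing.injective (𝓞 F) F
    rw [map_pow, hx l hl]
    exact h1 l hl
  · rw [← hx l hl]
    exact hL2 l hl

theorem tower_field {K : Type} [Field K] [NumberField K] (e : GaussianInt ≃+* 𝓞 K)
    {D : GaussianInt} (hg : Good D) {S : Finset GaussianInt} (hS : AdmS D S) (F : Type) [Field F]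
    [NumberField F] [DecidableEq F] [Algebra K F] (h : Generated e S F) :
    Module.finrank K F = 2 ^ S.card ∧ BSDRank (twist e D F) 0 ∧
      Nat.card (twist e D F).toAffine.Point = 4 := by
  obtain ⟨x, C⟩ := ctx_of e hS h
  have hc : Nat.card (twist e D F).toAffine.Point = 4 := C.card hg hS
  have hfin : Finite (twist e D F).toAffine.Point := by
    apply Nat.finite_of_card_ne_zero
    rw [hc]
    norm_num
  obtain ⟨L, hL1, hL2, hL3⟩ := L_F C hg hS
  refine ⟨C.deg, ⟨⟨fun _ => crv (io F e D), fun v => crvF_min C (fun l hl => (hS.att l hl).four)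
    hg.ps (fun l hl => (hS.att l hl).nd) v⟩, ⟨L, hL1, fun W hW s hs => ?_, ?_⟩, ?_, ?_⟩, hc⟩
  · exact hL3 W hW s hs
  · exact (hL1.analyticAt 1).analyticOrderAt_eq_zero.2 hL2
  · infer_instance
  · exact Module.finrank_eq_zero_of_rank_eq_zero (rank_eq_zero_iff.2 (by
      intro x
      refine ⟨(Nat.card (twist e D F).toAffine.Point : ℤ), by rw [hc]; norm_num, ?_⟩
      rw [natCast_zsmul, card_nsmul_eq_zero']))

theorem towers_of {D : GaussianInt} (hg : Good D) : Towers D := by
  intro S hS
  have hS' := (admissible_iff hg.ps S).1 hS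
  obtain ⟨h1, h2⟩ := ext_dens hg.ps (PD_nonempty hg.ps hg.five) hS'
  refine ⟨?_, ?_, fun K _ _ e => ⟨exists_generated e S, fun F _ _ _ _ hF =>
    tower_field e hg hS' F hF⟩⟩
  · simp only [admissible_iff hg.ps]
    exact h1
  · rw [omega_eq hg.ps]
    simp only [admissible_iff hg.ps]
    exact h2

end proof

/-- The set of primary squarefree Gaussian integers `D` of norm at most `X` in the class. -/
def Members (X : ℕ) : Set GaussianInt := {D | InClass D ∧ D.norm ≤ X}

theorem members_finite (X : ℕ) : (Members X).Finite := by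
  refine (Pool.Agent.Y699.fin_norm_le X).subset ?_
  rintro D ⟨-, h⟩
  have h0 := GaussianInt.norm_nonneg D
  show D.norm.natAbs ≤ X
  omega

/-- **Main theorem.**  (1) Every `D` of the class has the property `Towers`: for every admissible `S`
the primes `l` for which `S ∪ {l}` is admissible are infinite in number and have the density
`ω(D) / 2 ^ (ω(D) + #S)` among the primes that are `1` modulo `4`, and over `F = ℚ(i)(√l : l ∈ S)`, a
field of degree `2 ^ #S` over `ℚ(i)`, the rank part of the Birch and Swinnerton-Dyer conjecture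
holds for `y² = x³ - D² x` with order of vanishing and rank zero, and this curve has exactly four
points over `F`.  (2) There is `c > 0` such that for all large `X` at least `c X` of the Gaussian
integers of norm at most `X` are in the class. -/
theorem result : (∀ D : GaussianInt, InClass D → Towers D) ∧
    ∃ c : ℝ, 0 < c ∧ ∃ X₀ : ℕ, ∀ X : ℕ, X₀ ≤ X →
      c * X ≤ ({D : GaussianInt | InClass D ∧ D.norm ≤ X}.ncard : ℝ) := by
  refine ⟨fun D hD => towers_of ((good_iff D).1 hD), ?_⟩
  obtain ⟨c, hc, X₀, h⟩ := Pool.Agent.Y699.positive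
  refine ⟨c, hc, X₀, fun X hX => (h X hX).trans ?_⟩
  have h1 : ((Pool.Agent.Y699.GB X : Finset GaussianInt) : Set GaussianInt) ⊆ Members X := by
    intro D hD
    have h2 : D ∈ Pool.Agent.Y699.SB X ∧ Pool.Agent.Y699.Good D := by
      have h0 := Finset.mem_coe.1 hD
      unfold Pool.Agent.Y699.GB at h0
      classical
      exact Finset.mem_filter.1 h0
    have h3 := (Pool.Agent.Y699.mem_SB).1 h2.1
    refine ⟨(good_iff D).2 h2.2, ?_⟩
    have h4 : D.norm.natAbs ≤ X := h3.1
    omega
  have h5 := Set.ncard_le_ncard h1 (members_finite X)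
  rw [Set.ncard_coe_finset] at h5
  exact_mod_cast h5

end Pool.Agent.Results.MP_1a91b9_nt.GaussianTowers
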