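import Pool.Agent.J4.H24.BR.Main

/-!
# The rank part of the conjecture of Birch and Swinnerton-Dyer over number fields: the fields over
which the rank is large are enough

Let `E : y² = x³ + A x + B` be an elliptic curve over a number field `F`, with `A, B` integral and
both nonzero (so `j ≠ 0, 1728`), and let `R` be a natural number. There are finite extensions
`F_i` of `F` (of degree a power of two) with `rank E(F_i) ≥ R`, integers `k_i` and `n ≥ 1` with
`L(E/F, s)^n = ∏ L(E/F_i, s)^(k_i)` and `n rank E(F) = ∑ k_i rank E(F_i)`. So, if the order of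
vanishing at `s = 1` is the rank over all finite extensions of `F` over which the rank is at
least `R`, then this holds over all finite extensions of `F`.
-/

set_option autoImplicit false

namespace Pool.Agent.Results.MP_1a91b9_nt.LargeRankSuffices

open NumberField Pool.Agent.J4.H24.BR

/-- explicit form of the membership -/
lemma explicit {F : Type} [Field F] [NumberField F] {A B : 𝓞 F} {R : ℕ}
    {x : (Half → ℂ) × ℤ} (hx : x ∈ S A B R) :
    ∃ (m : ℕ) (E : Fin m → Ext F) (k : Fin m → ℤ),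
      (∀ i, R ≤ (E i).rank A B ∧ ∃ j, Module.finrank F (E i).K = 2 ^ j) ∧
      (∀ s : Half, x.1 s = ∑ i, (k i : ℂ) * (E i).logL A B s) ∧
      x.2 = ∑ i, k i * ((E i).rank A B : ℤ) := by
  classical
  obtain ⟨c, hc⟩ := (Finsupp.mem_span_range_iff_exists_finsupp).1 hx
  let e : Fin c.support.card ≃ c.support := c.support.equivFin.symm
  have h1 : x = ∑ i, c (e i).1 • vl A B R (e i).1 := by
    rw [← hc, Finsupp.sum, ← Finset.sum_coe_sort]
    exact (Equiv.sum_comp e fun y : c.support => c y.1 • vl A B R y.1).symm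
  refine ⟨c.support.card, fun i => (e i).1.1, fun i => c (e i).1, fun i => (e i).1.2, ?_, ?_⟩
  · intro s
    rw [h1, Prod.fst_sum, Finset.sum_apply]
    refine Finset.sum_congr rfl fun i _ => ?_
    change c (e i).1 • (Ext.logL (e i).1.1 A B s) = _
    rw [zsmul_eq_mul]
  · rw [h1, Prod.snd_sum]
    refine Finset.sum_congr rfl fun i _ => ?_
    change c (e i).1 • ((Ext.rank (e i).1.1 A B : ℕ) : ℤ) = _
    rw [smul_eq_mul]

/-- the pairs for which the assertion about the order holds -/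
def good : AddSubgroup ((Half → ℂ) × ℤ) where
  carrier := {x | ∃ L : ℂ → ℂ, (∀ s : Half, L s = x.1 s) ∧ HasOrder L x.2}
  zero_mem' := ⟨0, fun _ => rfl, HasOrder.zero⟩
  add_mem' := by
    rintro x y ⟨L, h1, h2⟩ ⟨L', h1', h2'⟩
    exact ⟨L + L', fun s => by rw [Pi.add_apply, h1, h1']; rfl, h2.add h2'⟩
  neg_mem' := by
    rintro x ⟨L, h1, h2⟩
    exact ⟨-L, fun s => by rw [Pi.neg_apply, h1]; rfl, h2.neg⟩

lemma reduce {K : Type} [Field K] [NumberField K] {a b : 𝓞 K} (ha : a ≠ 0) (hb : b ≠ 0)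
    (hΔ : 4 * a ^ 3 + 27 * b ^ 2 ≠ 0) (R : ℕ)
    (h : ∀ E : Ext K, R ≤ E.rank a b → HasOrder (E.logL a b) (E.rank a b)) :
    HasOrder (logL a b) (rank a b) := by
  obtain ⟨n, hn, hn2⟩ := main R R K a b ha hb hΔ (Nat.le_add_left _ _)
  have h1 : S a b R ≤ AddSubgroup.toIntSubmodule good := by
    unfold S
    rw [Submodule.span_le]
    rintro _ ⟨⟨E, hE, hj⟩, rfl⟩
    exact ⟨E.logL a b, fun s => rfl, h E hE⟩
  obtain ⟨L, h2, h3⟩ := h1 hn2
  refine HasOrder.of_mul hn (HasOrder.congr h3 fun s hs => ?_)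
  rw [h2 ⟨s, hs⟩]
  change (n : ℤ) • logL a b s = _
  rw [zsmul_eq_mul, Int.cast_natCast]

/-- **The fields of large rank are enough.** -/
theorem result (F : Type) [Field F] [NumberField F] (A B : 𝓞 F) (hA : A ≠ 0) (hB : B ≠ 0)
    (hΔ : 4 * A ^ 3 + 27 * B ^ 2 ≠ 0) (R : ℕ) :
    -- the relation
    (∃ (n m : ℕ) (E : Fin m → Ext F) (k : Fin m → ℤ), 0 < n ∧
      (∀ i, R ≤ (E i).rank A B ∧ ∃ j, Module.finrank F (E i).K = 2 ^ j) ∧
      (∀ s : ℂ, 3 / 2 < s.re → (n : ℂ) * logL A B s = ∑ i, (k i : ℂ) * (E i).logL A B s) ∧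
      (n : ℤ) * rank A B = ∑ i, k i * ((E i).rank A B : ℤ)) ∧
    -- the fields of rank at least `R` are enough
    ((∀ E : Ext F, R ≤ E.rank A B → HasOrder (E.logL A B) (E.rank A B)) →
      ∀ E : Ext F, HasOrder (E.logL A B) (E.rank A B)) ∧
    -- the meaning of `HasOrder` for meromorphic L-functions
    (∀ (E : Ext F) (h : ℂ → ℂ), MeromorphicOn h Set.univ →
      (∀ s : ℂ, 3 / 2 < s.re → h s = Complex.exp (E.logL A B s)) →
      (HasOrder (E.logL A B) (E.rank A B) ↔
        meromorphicOrderAt h 1 = ((E.rank A B : ℤ) : WithTop ℤ))) ∧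
    -- the series converge
    (∀ (E : Ext F) (s : ℂ), 3 / 2 < s.re →
      Summable (lTerm (algebraMap (𝓞 F) (𝓞 E.K) A) (algebraMap (𝓞 F) (𝓞 E.K) B) s)) := by
  refine ⟨?_, ?_, ?_, ?_⟩
  · obtain ⟨n, hn, hn2⟩ := main R R F A B hA hB hΔ (Nat.le_add_left _ _)
    obtain ⟨m, E, k, h1, h2, h3⟩ := explicit hn2
    refine ⟨n, m, E, k, hn, h1, fun s hs => ?_, ?_⟩
    · rw [← h2 ⟨s, hs⟩]
      change _ = (n : ℤ) • logL A B s
      rw [zsmul_eq_mul, Int.cast_natCast]
    · rw [← h3]
      change _ = (n : ℤ) • (rank A B : ℤ)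
      rw [smul_eq_mul]
  · intro h E
    have inj := FaithfulSMul.algebraMap_injective (𝓞 F) (𝓞 E.K)
    refine reduce ((map_ne_zero_iff _ inj).2 hA) ((map_ne_zero_iff _ inj).2 hB) ?_ R ?_
    · intro h7
      apply hΔ
      apply inj
      have e4 : algebraMap (𝓞 F) (𝓞 E.K) 4 = 4 := map_ofNat _ 4
      have e27 : algebraMap (𝓞 F) (𝓞 E.K) 27 = 27 := map_ofNat _ 27
      rw [map_zero, ← h7, map_add, map_mul, map_mul, map_pow, map_pow, e4, e27]
    · intro E' hE'
      let alg : Algebra F E'.K := ((algebraMap E.K E'.K).comp (algebraMap F E.K)).toAlgebra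
      let E'' : Ext F := ⟨E'.K⟩
      have eA : ∀ C : 𝓞 F, algebraMap (𝓞 F) (𝓞 E''.K) C =
          algebraMap (𝓞 E.K) (𝓞 E'.K) (algebraMap (𝓞 F) (𝓞 E.K) C) := by
        intro C
        apply RingOfIntegers.ext
        rfl
      have h1 := h E''
      unfold Ext.rank Ext.logL at h1
      rw [eA, eA] at h1
      exact h1 hE'
  · intro E h hh he
    exact hasOrder_iff hh he
  · intro E s hs
    exact summable_lTerm _ _ hs

end Pool.Agent.Results.MP_1a91b9_nt.LargeRankSuffices
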