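import Mathlib
import Pool.Agent.J4.H58.BSD.Ana

/-!
# The rank part of the Birch and Swinnerton-Dyer conjecture for an elliptic curve over `ℚ` over all
number fields: only `ℚ`, the totally odd twists over totally real fields and the everywhere
unramified twists over totally complex fields matter

The other definitions are in `Pool.Agent.J4.H58.BSD.Defs` and `Pool.Agent.K4H74.SC.Core`.
-/

set_option autoImplicit false

namespace Pool.Agent.Results.MP_1a91b9_nt.UnramifiedTwists

open NumberField Pool.Agent.K4H74 Pool.Agent.K4H74.SK Pool.Agent.K4H77 Pool.Agent.K4H34.AL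
  Pool.Agent.J4.H58.BSD Pool.Agent.J4.H58.DEL

/-- The decomposition group of the ideal `P` of the integers of `L`. -/
def decompGroup {E : Ext} (P : Ideal (𝓞 E.L)) : Set (G E) :=
  {g | ∀ x y : 𝓞 E.L, (y : E.L) = emb g x → (y ∈ P ↔ x ∈ P)}

/-- The inertia group of the ideal `P` of the integers of `L`. -/
def inertiaGroup {E : Ext} (P : Ideal (𝓞 E.L)) : Set (G E) :=
  {g | ∀ x y : 𝓞 E.L, (y : E.L) = emb g x → y - x ∈ P}

/-- `L / K` is unramified at all finite primes, and the primes above `q` split completely. -/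
def UnramifiedSplit (q : ℕ) (E : Ext) : Prop :=
  ∀ P : Ideal (𝓞 E.L), P.IsMaximal → (∀ g ∈ inertiaGroup P, g = 1) ∧
    ((q : 𝓞 E.L) ∈ P → ∀ g ∈ decompGroup P, g = 1)

lemma mem_decomp {E : Ext} {P : Ideal (𝓞 E.L)} (g : G E) :
    g ∈ decompGroup P ↔ (show E.L ≃ₐ[E.K] E.L from g) ∈ SL.decomp E.K P := by
  constructor
  · intro h x
    exact h x _ rfl
  · intro h x y hy
    have h1 : y = SL.gi (show E.L ≃ₐ[E.K] E.L from g) x := RingOfIntegers.ext hy
    rw [h1]
    exact h x

lemma mem_inertia {E : Ext} {P : Ideal (𝓞 E.L)} (g : G E) :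
    g ∈ inertiaGroup P ↔ (show E.L ≃ₐ[E.K] E.L from g) ∈ SL.inertia E.K P := by
  constructor
  · intro h x
    exact h x _ rfl
  · intro h x y hy
    have h1 : y = SL.gi (show E.L ≃ₐ[E.K] E.L from g) x := RingOfIntegers.ext hy
    rw [h1]
    exact h x

/-- The linear character `ψ` takes the value `-1` at all complex conjugations. -/
def TotallyOdd {E : Ext} (ψ : G E →* ℂˣ) : Prop := ∀ t : G E, IsCC t → ψ t = -1

/-- The basic characters: the trivial character of `ℚ`, the totally odd linear characters of the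
extensions of the totally real fields, and the faithful linear characters of the (cyclic)
extensions `L / K`, `K` totally complex, which are unramified at all finite primes and in which the
primes above `q` split completely (for `L = K`: the trivial character of `K`). -/
inductive Basic (q : ℕ) : Pair → Prop
  | rational : Basic q ⟨⟨ℚ, ℚ⟩, fun _ => 1⟩
  | odd (E : Ext) (ψ : G E →* ℂˣ) : IsTotallyReal E.K → TotallyOdd ψ → Basic q ⟨E, lin ψ⟩
  | unramified (E : Ext) (ψ : G E →* ℂˣ) : IsTotallyComplex E.K → UnramifiedSplit q E →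
      Function.Injective ψ → Basic q ⟨E, lin ψ⟩

lemma Basic.isChr {q : ℕ} {x : Pair} (h : Basic q x) : IsChr x.2 := by
  cases h with
  | rational =>
    have h1 := isChr_lin (E := ⟨ℚ, ℚ⟩) 1
    have h2 : lin (1 : G ⟨ℚ, ℚ⟩ →* ℂˣ) = fun _ => 1 := by
      funext g
      simp [lin]
    rwa [h2] at h1
  | odd E ψ _ _ => exact isChr_lin ψ
  | unramified E ψ _ _ _ => exact isChr_lin ψ

/-- Let `E` be the elliptic curve over `ℚ` with the equation `W`. For a character `χ` of the Galois
group of an extension `L / K` of number fields, the series for `log L(E, χ, s)` converges for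
`Re s > 3`, and there is exactly one multiplicity of `χ` in `ℂ ⊗ E(L)`; for the trivial character of
`K` it is the rank of `E(K)`. Let `q ≥ 1`.

(1) For every `χ` there are `n ≥ 1`, basic characters `ψ_i` (for `q`) and integers `k_i`, the same
ones for all curves, with `L(E, χ, s)^n = ∏ L(E, ψ_i, s)^(k_i)` (for the logarithms), the same
relation (`n m = ∑ k_i m_i`) for the multiplicities, and, if the L-functions have meromorphic
continuations to `ℂ`, the same relation for their orders at `s = 1`. So the difference of the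
order and the multiplicity for `χ` is the combination, with the coefficients `k_i / n`, of the
differences for the `ψ_i`.

(2) If the rank part of the conjecture (`L(E, ψ, s)` has a meromorphic continuation, and its order
at `s = 1` is the multiplicity of `ψ`) is true for the twists of `E` by the basic characters, then
for every `χ` the power `L(E, χ, s)^n` has a meromorphic continuation with the order `n m` at
`s = 1`, where `m` is the multiplicity of `χ` and `n ≥ 1` depends only on `χ`.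

(3) In this case, for every number field `K` such that `L(E / K, s)` has a meromorphic continuation
to `ℂ`, its order at `s = 1` is the rank of `E(K)`. -/
theorem result :
    (∀ W : WeierstrassCurve ℤ, W.Δ ≠ 0 →
      (∀ (E : Ext) (χ : G E → ℂ), IsChr χ →
        (∀ s : ℂ, 3 < s.re → ∃ l : ℂ, HasSum (eTerm W s χ) l) ∧ ∃! m : ℕ, IsMult W χ m) ∧
      ∀ (K : Type) [Field K] [NumberField K],
        IsMult W (E := ⟨K, K⟩) (fun _ => 1) (Module.finrank ℤ (Pt W K))) ∧
    ∀ q : ℕ, q ≠ 0 →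
      -- (1)
      (∀ (E : Ext) (χ : G E → ℂ), IsChr χ → ∃ n : ℕ, 0 < n ∧
        ∃ (r : ℕ) (x : Fin r → Pair) (k : Fin r → ℤ), (∀ i, Basic q (x i)) ∧
          ∀ W : WeierstrassCurve ℤ, W.Δ ≠ 0 →
            (∀ s : ℂ, 3 < s.re → ∀ (l : ℂ) (l' : Fin r → ℂ), HasSum (eTerm W s χ) l →
              (∀ i, HasSum (eTerm W s (x i).2) (l' i)) → n * l = ∑ i, k i * l' i) ∧
            (∀ (m : ℕ) (m' : Fin r → ℕ), IsMult W χ m → (∀ i, IsMult W (x i).2 (m' i)) →
              (n : ℤ) * m = ∑ i, k i * m' i) ∧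
            ∀ (f : ℂ → ℂ) (f' : Fin r → ℂ → ℂ), IsPower W 1 χ f →
              (∀ i, IsPower W 1 (x i).2 (f' i)) → ∃ (a : ℤ) (a' : Fin r → ℤ),
                meromorphicOrderAt f 1 = a ∧ (∀ i, meromorphicOrderAt (f' i) 1 = a' i) ∧
                  n * a = ∑ i, k i * a' i) ∧
      -- (2)
      (∀ (E : Ext) (χ : G E → ℂ), IsChr χ → ∃ n : ℕ, 0 < n ∧ ∀ W : WeierstrassCurve ℤ, W.Δ ≠ 0 →
        (∀ x : Pair, Basic q x → RankPart W x.2) → ∃ F : ℂ → ℂ, IsPower W n χ F ∧
          ∀ m : ℕ, IsMult W χ m → meromorphicOrderAt F 1 = ((n * m : ℕ) : WithTop ℤ)) ∧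
      -- (3)
      ∀ W : WeierstrassCurve ℤ, W.Δ ≠ 0 → (∀ x : Pair, Basic q x → RankPart W x.2) →
        ∀ (K : Type) [Field K] [NumberField K] (f : ℂ → ℂ),
          IsPower W 1 (E := ⟨K, K⟩) (fun _ => 1) f →
            meromorphicOrderAt f 1 = Module.finrank ℤ (Pt W K) := by
  refine ⟨fun W hΔ => ⟨fun E χ hχ => ⟨fun s hs => eTerm_summable W hs χ, ?_⟩,
    fun K _ _ => isMult_one hΔ K⟩, fun q hq => ?_⟩
  · obtain ⟨m, hm⟩ := isMult_exists hΔ hχ
    exact ⟨m, hm, fun m' hm' => isMult_unique hΔ hm' hm⟩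
  -- the orders are finite
  have hord : ∀ (W : WeierstrassCurve ℤ) (y : Pair) (f : ℂ → ℂ), IsPower W 1 y.2 f →
      ∃ a : ℤ, meromorphicOrderAt f 1 = a := by
    intro W y f hf
    cases h : meromorphicOrderAt f 1 with
    | coe a => exact ⟨a, rfl⟩
    | top =>
      exfalso
      have h1 := order_finite hf
      exact h1 h
  have hmain : ∀ (E : Ext) (χ : G E → ℂ), IsChr χ → ∃ n : ℕ, 0 < n ∧
        ∃ (r : ℕ) (x : Fin r → Pair) (k : Fin r → ℤ), (∀ i, Basic q (x i)) ∧
          ∀ W : WeierstrassCurve ℤ, W.Δ ≠ 0 →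
            (∀ s : ℂ, 3 < s.re → ∀ (l : ℂ) (l' : Fin r → ℂ), HasSum (eTerm W s χ) l →
              (∀ i, HasSum (eTerm W s (x i).2) (l' i)) → n * l = ∑ i, k i * l' i) ∧
            (∀ (m : ℕ) (m' : Fin r → ℕ), IsMult W χ m → (∀ i, IsMult W (x i).2 (m' i)) →
              (n : ℤ) * m = ∑ i, k i * m' i) ∧
            ∀ (f : ℂ → ℂ) (f' : Fin r → ℂ → ℂ), IsPower W 1 χ f →
              (∀ i, IsPower W 1 (x i).2 (f' i)) → ∃ (a : ℤ) (a' : Fin r → ℤ),
                meromorphicOrderAt f 1 = a ∧ (∀ i, meromorphicOrderAt (f' i) 1 = a' i) ∧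
                  n * a = ∑ i, k i * a' i := by
    intro E χ hχ
    obtain ⟨n, hn, r, x, k, hx, h⟩ := power_form3 eInv (Basic q) hq
      Basic.rational
      (fun E hE ψ hψ => Basic.odd E ψ hE hψ)
      (fun E hE hP ψ hψ => Basic.unramified E ψ hE (fun P hPm =>
        ⟨fun g hg => (hP P hPm).1 g ((mem_inertia g).mp hg),
          fun hmP g hg => (hP P hPm).2 hmP g ((mem_decomp g).mp hg)⟩) hψ) hχ
    refine ⟨n, hn, r, x, k, hx, fun W hΔ => ⟨fun s hs l l' hl hl' => rel_log h hs hl hl',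
      fun m m' hm hm' => rel_mult h hΔ hm hm', fun f f' hf hf' => ?_⟩⟩
    choose a' ha' using fun i => hord W (x i) (f' i) (hf' i)
    obtain ⟨F, hF, hF1⟩ := order_rel (fun s hs l l' hl hl' => rel_log h hs hl hl') hf' ha'
    obtain ⟨a, ha, ha2⟩ := order_of_power hn hF hF1 hf
    exact ⟨a, a', ha, ha', ha2⟩
  have hpow : ∀ (E : Ext) (χ : G E → ℂ), IsChr χ → ∃ n : ℕ, 0 < n ∧
      ∀ W : WeierstrassCurve ℤ, W.Δ ≠ 0 →
        (∀ x : Pair, Basic q x → RankPart W x.2) → ∃ F : ℂ → ℂ, IsPower W n χ F ∧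
          ∀ m : ℕ, IsMult W χ m → meromorphicOrderAt F 1 = ((n * m : ℕ) : WithTop ℤ) := by
    intro E χ hχ
    obtain ⟨n, hn, r, x, k, hx, h⟩ := hmain E χ hχ
    refine ⟨n, hn, fun W hΔ hb => ?_⟩
    choose f m' hf hm' ho using fun i => hb (x i) (hx i)
    obtain ⟨F, hF, hF1⟩ := order_rel (m' := fun i => (m' i : ℤ))
      (fun s hs l l' hl hl' => (h W hΔ).1 s hs l l' hl hl') hf ho
    refine ⟨F, hF, fun m hm => ?_⟩
    rw [hF1, ← (h W hΔ).2.1 m m' hm hm']
    push_cast
    rfl
  refine ⟨hmain, hpow, fun W hΔ hb K _ _ f hf => ?_⟩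
  have hone : IsChr (fun _ : G ⟨K, K⟩ => (1 : ℂ)) := by
    have h1 := isChr_lin (E := ⟨K, K⟩) 1
    have h2 : lin (1 : G ⟨K, K⟩ →* ℂˣ) = fun _ => 1 := by
      funext g
      simp [lin]
    rwa [h2] at h1
  obtain ⟨n, hn, h⟩ := hpow ⟨K, K⟩ (fun _ => 1) hone
  obtain ⟨F, hF, hF1⟩ := h W hΔ hb
  have h2 := hF1 _ (isMult_one hΔ K)
  obtain ⟨a, ha, ha2⟩ := order_of_power (c := ((n * Module.finrank ℤ (Pt W K) : ℕ) : ℤ)) hn hF
    (by rw [h2]; rfl) hf
  rw [ha]
  push_cast at ha2
  have hn' : (n : ℤ) ≠ 0 := by exact_mod_cast hn.ne'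
  rw [mul_left_cancel₀ hn' ha2]
  rfl

end Pool.Agent.Results.MP_1a91b9_nt.UnramifiedTwists
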